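import Pool.Agent.BXS.Stmts

/-!
# Squad BXS, row ZBX (MP_be01ff_an): functions in `H10` of a box
-/

set_option autoImplicit false

namespace Pool.Agent.BXS.H39

open Pool.Agent.BE01F Pool.Agent.BEC Pool.Agent.BXS

theorem zbx (hcut : CutStmt) (hbcu : BcuStmt) (hbli : BliStmt) (hbfr : BfrStmt) : ZbxStmt := by
  intro N l V f hl hV hBV hf hz
  obtain ⟨C, hC, hfC⟩ := hbli N l V f hl hV hBV hf hz
  obtain ⟨hop, hbd, hcl, -⟩ := hbfr N l hl
  obtain ⟨c, M, h1, h2, h3, h4, h5⟩ := hbcu N l f C hl hC hfC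
  exact hcut N (Bx l) V f c M hop hbd h1 h2 h3 h4 h5 hV (hcl.trans hBV) hf

end Pool.Agent.BXS.H39
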